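import Pool.Agent.Lib.MP_bc213e_ag.OW.H.Main
import Pool.Agent.Lib.MP_bc213e_ag.OW.Inter
import Pool.Agent.Lib.MP_bc213e_ag.OW.G.Shift
import Pool.Agent.Lib.MP_bc213e_ag.OW.A.Eff
import Pool.Agent.Lib.MP_bc213e_ag.KBF.Link

/-! From intersection numbers to the degree of the Hilbert polynomial. -/

namespace Pool.Agent.Lib.MP_bc213e_ag.OW

open Pool.Agent.Lib.MP_bc213e_ag.Hyp Pool.Agent.Lib.MP_bc213e_ag.KBB WithZero Filter

variable {K κ : Type} [Field K] [Algebra ℂ K] {N : ℕ} {x : Fin (N + 1) → Kˣ} {L H : Prm x →₀ ℤ}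

theorem chi_all
    (normal : ∀ i, IsFractionRing (chart x i) K ∧ IsIntegrallyClosed (chart x i))
    (hH : ∀ i (w : Prm x), PrimeDiv (chart x i) w.1 → H w = ord w.1 ((x 0 : K) / x i))
    (L : Prm x →₀ ℤ) {p : Polynomial ℚ}
    (hp : ∀ᶠ a : ℕ in atTop, (Module.finrank ℂ (Tw L a) : ℚ) = p.eval (a : ℚ)) (a : ℕ) :
    (chi (Sect (L + a • H)) : ℚ) = p.eval (a : ℚ) := by
  obtain ⟨q, h0, h1⟩ := cech_hilb x normal (L + a • H)
  have h2 : Tendsto (fun b : ℕ => a + b) atTop atTop :=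
    tendsto_atTop_mono (fun b => Nat.le_add_left b a) tendsto_id
  have h3 : q = p.comp (Polynomial.C (a : ℚ) + Polynomial.X) := KBF.eq_of_eventually (by
    filter_upwards [h1, h2.eventually hp] with b h4 h5
    rw [← h4, finrank_tw_shift hH, h5, Polynomial.eval_comp]
    simp)
  rw [← h0, h3, Polynomial.eval_comp]
  simp

theorem Emb.chi_ev (E : Emb L κ)
    (normal : ∀ i, IsFractionRing (chart x i) K ∧ IsIntegrallyClosed (chart x i))
    (hH : ∀ i (w : Prm x), PrimeDiv (chart x i) w.1 → H w = ord w.1 ((x 0 : K) / x i))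
    {P : P2} {a₀ : ℕ} (hP : ∀ t a : ℕ, a₀ ≤ a →
      (Module.finrank ℂ (Tw (t • L) (E.k * a)) : ℚ) = ev P t a) (t a : ℕ) :
    (chi (Sect (t • L + a • H)) : ℚ) = ev P t ((E.k : ℚ)⁻¹ * a) := by
  obtain ⟨p, -, h1⟩ := cech_hilb x normal (t • L)
  have hk : (E.k : ℚ) ≠ 0 := Nat.cast_ne_zero.2 E.kpos.ne'
  have h2 : Tendsto (fun a : ℕ => E.k * a) atTop atTop :=
    tendsto_atTop_mono (fun a => Nat.le_mul_of_pos_left a E.kpos) tendsto_id
  have h3 : p.comp (Polynomial.C (E.k : ℚ) * Polynomial.X) = KBF.spec P t :=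
    KBF.eq_of_eventually (by
      filter_upwards [h2.eventually h1, eventually_ge_atTop a₀] with b h4 h5
      rw [KBF.spec_eval, Polynomial.eval_comp, ← ev, ← hP t b h5, h4]
      simp)
  rw [chi_all normal hH _ h1, ev, ← KBF.spec_eval, ← h3, Polynomial.eval_comp]
  simp [hk]

theorem Emb.td [Fintype κ] (E : Emb L κ)
    (normal : ∀ i, IsFractionRing (chart x i) K ∧ IsIntegrallyClosed (chart x i))
    (hn : Nef E.x' E.g') {n ν : ℕ} (tr : Algebra.trdeg ℂ K = n)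
    (hH : ∀ i (w : Prm x), PrimeDiv (chart x i) w.1 → H w = ord w.1 ((x 0 : K) / x i))
    (numdim : ∀ i j, ν < i → i + j = n → inter L H i j = 0) {P : P2} {a₀ : ℕ}
    (hP : ∀ t a : ℕ, a₀ ≤ a → (Module.finrank ℂ (Tw (t • L) (E.k * a)) : ℚ) = ev P t a) :
    TD ν P := by
  have : Nonempty κ := ⟨E.k₀⟩
  have hk : (E.k : ℚ)⁻¹ ≠ 0 := inv_ne_zero (Nat.cast_ne_zero.2 E.kpos.ne')
  have hR : Rep E.g' (Idl.bot E.x') P := ⟨a₀, fun t a ha => by
    obtain ⟨e⟩ := h0_bot E.x' E.g' t a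
    rw [hz, e.finrank_eq, E.finrank_eq, hP t a ha]⟩
  have gen := E.gen fun i => (normal i).1
  have hd := dg_rep E.k₀ E.one gen E.cart hn tr hR
  obtain ⟨P', h1, h2⟩ := exists_scale P (E.k : ℚ)⁻¹
  refine td_ind ν n K κ E.x' E.g' E.k₀ E.one gen E.cart hn tr P hR hd fun i j hi hij => ?_
  have h3 : Dg P' (i + j) := fun i' j' h => by rw [h2, hd i' j' (hij ▸ h), mul_zero]
  have h4 := mixed_diff h3
  have h5 : ((inter L H i j : ℤ) : ℚ) = i.factorial * j.factorial * cf P' i j := by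
    rw [← h4, inter]
    push_cast
    refine Finset.sum_congr rfl fun t _ => Finset.sum_congr rfl fun a _ => ?_
    rw [E.chi_ev normal hH hP, h1]
  rw [numdim i j hi hij, Int.cast_zero, h2] at h5
  have h6 : (i.factorial * j.factorial : ℚ) ≠ 0 :=
    mul_ne_zero (Nat.cast_ne_zero.2 i.factorial_ne_zero) (Nat.cast_ne_zero.2 j.factorial_ne_zero)
  exact (mul_eq_zero.1 ((mul_eq_zero.1 h5.symm).resolve_left h6)).resolve_left (pow_ne_zero j hk)

end Pool.Agent.Lib.MP_bc213e_ag.OW
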