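import Pool.Agent.Lib.MP_bc213e_ag.OW.H.PolE

/-! Total degree, mixed differences and scaling. -/

namespace Pool.Agent.Lib.MP_bc213e_ag.OW

open Pool.Agent.Lib.MP_bc213e_ag.Hyp Pool.Agent.Lib.MP_bc213e_ag.KBB MvPolynomial

theorem polf_dg {P : P2} {d : ℕ} (h : P.totalDegree ≤ d) : Dg P d := fun i j hij => by
  refine coeff_eq_zero_of_totalDegree_lt (h.trans_lt ?_)
  rw [Finset.sum_subset (Finset.subset_univ _) fun k _ hk => Finsupp.notMem_support_iff.1 hk]
  simpa using hij

theorem polf_lin (B k : ℚ) (n : ℕ) : Dg (C B * (X 1 + C k * X 0 + 1) ^ n) n := by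
  have h1 : (X 1 + C k * X 0 + 1 : P2).totalDegree ≤ 1 := by
    refine (totalDegree_add _ _).trans (max_le ((totalDegree_add _ _).trans (max_le ?_ ?_)) ?_)
    · rw [totalDegree_X]
    · exact (totalDegree_mul _ _).trans (by rw [totalDegree_C, totalDegree_X])
    · rw [totalDegree_one]; exact zero_le_one
  refine polf_dg ((totalDegree_mul _ _).trans ?_)
  rw [totalDegree_C, zero_add]
  exact (totalDegree_pow _ _).trans (by simpa using Nat.mul_le_mul_left n h1)

/-- Sketch: let `d > n` be minimal with `Dg P d`. The top coefficients are `≥ 0` and not all zero,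
so `N ↦ ev P N N` is a polynomial of degree `d` that is `O (N ^ n)` and eventually positive. -/
theorem dg_of_bound {P : P2} (h : TP P) {n k a₀ : ℕ} {B : ℚ}
    (hB : ∀ t a : ℕ, a₀ ≤ a → ev P t a ≤ B * ((a : ℚ) + k * t + 1) ^ n) : Dg P n := by
  have key : ∀ m, Dg P (n + m) → Dg P n := fun m => by
    induction m with
    | zero => exact id
    | succ m ih =>
      refine fun hd => ih fun i j hij => ?_
      rcases Nat.lt_or_ge (n + (m + 1)) (i + j) with h1 | h1
      · exact hd i j h1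
      by_contra hn
      have hR := polf_lin B k n
      have hc : ∀ p q, n < p + q → cf (P - C B * (X 1 + C (k : ℚ) * X 0 + 1) ^ n) p q = cf P p q :=
        fun p q hpq => by rw [cf_sub, hR p q hpq, sub_zero]
      obtain ⟨N₀, hN⟩ := ray_pos (P := P - C B * (X 1 + C (k : ℚ) * X 0 + 1) ^ n) (d := n + (m + 1))
        (fun p q hpq => by rw [hc p q (by omega), hd p q hpq]) 1 1 (by
          simp only [one_pow, mul_one]
          refine Finset.sum_pos' (fun q hq => ?_) ⟨j, Finset.mem_range.2 (by omega), ?_⟩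
          · have := Finset.mem_range.1 hq
            rw [hc _ _ (by omega)]
            exact h _ hd _ _ (by omega)
          · rw [hc _ _ (by omega), show n + (m + 1) - j = i by omega]
            exact lt_of_le_of_ne (h _ hd i j (by omega)) (Ne.symm hn))
      have h2 := hN (max N₀ a₀) (le_max_left _ _)
      have h3 := hB (max N₀ a₀) (max N₀ a₀) (le_max_right _ _)
      rw [mul_one, ev_sub, sub_pos] at h2
      refine absurd h3 (not_le.2 (lt_of_eq_of_lt ?_ h2))
      simp [ev]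
  obtain ⟨d, hd⟩ := dg_exists P
  exact key d (hd.mono (by omega))

/-- Sketch: `b ↦ ev P (b * t) a` is a polynomial in `b` of degree `≤ n` with coefficient
`cf P n 0 * t ^ n` in degree `n`; `coeff_ne_of_freq`. -/
theorem cf_ne_of_growth {P : P2} {n : ℕ} (h : Dg P n) (t a : ℚ)
    (h0 : ∀ b : ℕ, ((b : ℚ) + 1) ^ n ≤ ev P (b * t) a) : cf P n 0 ≠ 0 := by
  intro hn
  obtain ⟨N, hN⟩ := sum_pos_of_top (fun i => (if i = n then 1 else 0) -
    ∑ j ∈ Finset.range (n + 1), cf P i j * t ^ i * a ^ j) n (by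
      rw [if_pos rfl, Finset.sum_eq_zero fun j _ => ?_, sub_zero]
      · exact one_pos
      · rcases j with _ | j
        · rw [hn, zero_mul, zero_mul]
        · rw [h n (j + 1) (by omega), zero_mul, zero_mul])
  have h1 := hN N le_rfl
  have h2 := h0 N
  have h3 : (N : ℚ) ^ n ≤ ((N : ℚ) + 1) ^ n :=
    pow_le_pow_left₀ (Nat.cast_nonneg N) (le_add_of_nonneg_right zero_le_one) n
  simp only [sub_mul, Finset.sum_sub_distrib, ite_mul, one_mul, zero_mul, Finset.sum_ite_eq',
    Finset.mem_range, Nat.lt_succ_self, if_true, Finset.sum_mul] at h1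
  rw [ev_eq_sum h] at h2
  have h4 : ∑ i ∈ Finset.range (n + 1), ∑ j ∈ Finset.range (n + 1),
      cf P i j * ((N : ℚ) * t) ^ i * a ^ j = ∑ i ∈ Finset.range (n + 1),
        ∑ j ∈ Finset.range (n + 1), cf P i j * t ^ i * a ^ j * (N : ℚ) ^ i :=
    Finset.sum_congr rfl fun i _ => Finset.sum_congr rfl fun j _ => by ring
  linarith

theorem polf_sum (i p : ℕ) : ∑ t ∈ Finset.range (i + 1),
    (-1 : ℚ) ^ (i - t) * i.choose t * (t : ℚ) ^ p = (fwdDiff 1)^[i] (fun r : ℚ => r ^ p) 0 := by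
  rw [fwdDiff_iter_eq_sum_shift]
  exact Finset.sum_congr rfl fun t _ => by simp

theorem polf_swap (s u v w : Finset ℕ) (f : ℕ → ℕ → ℕ → ℕ → ℚ) :
    ∑ t ∈ s, ∑ a ∈ u, ∑ p ∈ v, ∑ q ∈ w, f t a p q =
      ∑ p ∈ v, ∑ q ∈ w, ∑ t ∈ s, ∑ a ∈ u, f t a p q :=
  ((Finset.sum_congr rfl fun _ _ => Finset.sum_comm).trans Finset.sum_comm).trans
    (Finset.sum_congr rfl fun _ _ =>
      (Finset.sum_congr rfl fun _ _ => Finset.sum_comm).trans Finset.sum_comm)

/-- Sketch: `∑ t, (-1) ^ (i - t) * choose i t * t ^ p` is `0` for `p < i` and `i !` for `p = i`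
(`fwdDiff_iter_eq_sum_shift`, `fwdDiff_iter_pow_eq_zero_of_lt`, `fwdDiff_iter_eq_factorial`). In
`ev_eq_sum` a monomial of degree `≤ i + j` other than `(i, j)` has `p < i` or `q < j`. -/
theorem mixed_diff {P : P2} {i j : ℕ} (h : Dg P (i + j)) :
    ∑ t ∈ Finset.range (i + 1), ∑ a ∈ Finset.range (j + 1),
      (-1 : ℚ) ^ (i - t + (j - a)) * (i.choose t * j.choose a : ℕ) * ev P t a =
        i.factorial * j.factorial * cf P i j := by
  have e : ∑ t ∈ Finset.range (i + 1), ∑ a ∈ Finset.range (j + 1),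
      (-1 : ℚ) ^ (i - t + (j - a)) * (i.choose t * j.choose a : ℕ) * ev P t a =
      ∑ p ∈ Finset.range (i + j + 1), ∑ q ∈ Finset.range (i + j + 1), cf P p q *
        ((fwdDiff 1)^[i] (fun r : ℚ => r ^ p) 0 * (fwdDiff 1)^[j] (fun r : ℚ => r ^ q) 0) := by
    simp only [ev_eq_sum h, Finset.mul_sum]
    rw [polf_swap]
    refine Finset.sum_congr rfl fun p _ => Finset.sum_congr rfl fun q _ => ?_
    rw [← polf_sum, ← polf_sum, Finset.sum_mul_sum, Finset.mul_sum]
    refine Finset.sum_congr rfl fun t _ => ?_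
    rw [Finset.mul_sum]
    refine Finset.sum_congr rfl fun a _ => ?_
    push_cast
    ring
  rw [e, Finset.sum_eq_single i, Finset.sum_eq_single j, fwdDiff_iter_eq_factorial,
    fwdDiff_iter_eq_factorial]
  · simp [mul_comm]
  · intro q _ hq
    rcases lt_or_gt_of_ne hq with h1 | h1
    · rw [fwdDiff_iter_pow_eq_zero_of_lt h1]; simp
    · rw [h i q (by omega), zero_mul]
  · exact fun h1 => absurd (Finset.mem_range.2 (by omega)) h1
  · intro p _ hp
    refine Finset.sum_eq_zero fun q _ => ?_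
    rcases lt_or_gt_of_ne hp with h1 | h1
    · rw [fwdDiff_iter_pow_eq_zero_of_lt h1]; simp
    · rcases Nat.lt_or_ge q j with h2 | h2
      · rw [fwdDiff_iter_pow_eq_zero_of_lt h2]; simp
      · rw [h p q (by omega), zero_mul]
  · exact fun h1 => absurd (Finset.mem_range.2 (by omega)) h1

/-- Sketch: a finite sum of monomials, or `bind₁ ![X 0, C c * X 1]`. -/
theorem exists_scale (P : P2) (c : ℚ) : ∃ P' : P2, (∀ t a, ev P' t a = ev P t (c * a)) ∧
    ∀ i j, cf P' i j = c ^ j * cf P i j := by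
  obtain ⟨d, hd⟩ := dg_exists P
  have hc : ∀ i j, cf (∑ m ∈ Finset.range (d + 1), ∑ n ∈ Finset.range (d + 1),
      C (c ^ n * cf P m n) * X 0 ^ m * X 1 ^ n) i j = c ^ j * cf P i j := fun i j => by
    rw [polb_dbl fun m n => c ^ n * cf P m n]
    split_ifs with h1
    · rfl
    · rw [hd i j (by omega), mul_zero]
  refine ⟨_, fun t a => ?_, hc⟩
  rw [ev_eq_sum hd, ev_eq_sum (d := d) fun i j hij => by rw [hc, hd i j hij, mul_zero]]
  exact Finset.sum_congr rfl fun i _ => Finset.sum_congr rfl fun j _ => by rw [hc]; ring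

end Pool.Agent.Lib.MP_bc213e_ag.OW
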