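import Pool.Agent.Lib.MP_bc213e_ag.OW.H.Bnd
import Pool.Agent.Lib.MP_bc213e_ag.OW.H.PolF
import Pool.Agent.Lib.MP_bc213e_ag.OW.C.Dim

/-! From a hyperplane section to the variety. -/

namespace Pool.Agent.Lib.MP_bc213e_ag.OW

open Pool.Agent.Lib.MP_bc213e_ag.Hyp Pool.Agent.Lib.MP_bc213e_ag.KBB MvPolynomial

variable {K ι : Type} [Field K] [Algebra ℂ K] {x g : ι → Kˣ}

theorem big_rank [Nonempty ι] (x g : ι → Kˣ) (t : ℤ) (a : ℕ) :
    Module.finrank ℂ ((Idl.bot x).H0 g t a) = Module.finrank ℂ (SecS x g t a) :=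
  (h0_bot x g t a).elim fun e => e.finrank_eq

theorem big_fd [Fintype ι] [Nonempty ι] (hc : Cart x g) (t : ℤ) (a : ℕ) :
    FiniteDimensional ℂ (SecS x g t a) :=
  have := fd_bot hc t a
  (h0_bot x g t a).elim fun e => e.finiteDimensional

theorem big_bd [Fintype ι] [Nonempty ι] {μ : ℕ} {s : K} (hs : Sec x g 0 μ s) :
    s ∈ Bd (fun i => (x i : K)) μ := by
  intro O c h1 h2 _ h4
  obtain ⟨i, hi⟩ := Finite.exists_max fun i => O.valuation (x i)
  have h3 := hs i
  rw [zpow_zero, one_mul] at h3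
  have h5 := Basic_le O.valuation (fun z => (O.valuation_le_one_iff _).2 (h1 z)) x i hi _ h3
  rw [O.valuation_le_one_iff] at h5
  have h6 := O.mul_mem _ _ h5 (pow_mem (h4 i) μ)
  rwa [div_pow, div_mul_div_cancel₀ (pow_ne_zero _ (x i).ne_zero)] at h6

/-- Sketch: `Hyp.nn` gives a transcendence basis `y` in the span of the `x i`; the monomials with
all exponents `≤ b` are independent sections of `(n * b) H` (compare `dim_two`). -/
theorem dim_low [Fintype ι] (i₀ : ι) (one : x i₀ = 1)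
    (gen : IntermediateField.adjoin ℂ (Set.range fun i => (x i : K)) = ⊤) (hc : Cart x g) {n : ℕ}
    (tr : Algebra.trdeg ℂ K = n) (b : ℕ) : ((b : ℚ) + 1) ^ n ≤ hz g (Idl.bot x) 0 (n * b) := by
  have : Nonempty ι := ⟨i₀⟩
  obtain ⟨y, hy, hb, -⟩ := nn _ gen tr
  have hs : ∀ l, Sec x g 0 1 (y l) := fun l => (Submodule.span_le (p := SecS x g 0 1)).2
    (by rintro _ ⟨i, rfl⟩; exact (pow_one (x i : K) ▸ sec_x x g i 1 : Sec x g 0 1 (x i))) (hy l)
  have hp : ∀ l (p : Fin (b + 1)), Sec x g 0 b (y l ^ p.1) := fun l p => by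
    have h := sec_mul (sec_pow (hs l) p) (sec_x x g i₀ (b - p))
    rwa [one, Units.val_one, one_pow, mul_one, mul_one, mul_zero, add_zero,
      Nat.add_sub_cancel' (Nat.lt_succ_iff.1 p.2)] at h
  let m : (Fin n → Fin (b + 1)) → Fin n →₀ ℕ := fun p =>
    Finsupp.equivFunOnFinite.symm fun l => p l
  have hm : Function.Injective m := fun p q h =>
    _root_.funext fun l => Fin.ext (DFunLike.congr_fun h l)
  let v : (Fin n → Fin (b + 1)) → SecS x g ((0 : ℕ) : ℤ) (n * b) := fun p =>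
    ⟨∏ l, y l ^ (p l).1, fun i => by
      have h := prod_mem fun l (_ : l ∈ Finset.univ) => hp l (p l) i
      rw [Finset.prod_div_distrib, Fin.prod_const, mul_pow, ← pow_mul, mul_comm b, zpow_zero,
        one_pow] at h
      rwa [Nat.cast_zero, zpow_zero]⟩
  have hl := ((basisMonomials (Fin n) ℂ).linearIndependent.comp m hm).map' (aeval y).toLinearMap
    (LinearMap.ker_eq_bot.2 hb.1)
  have hv : LinearIndependent ℂ v := LinearIndependent.of_comp (SecS x g _ _).subtype (by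
    refine Eq.mp (congrArg (LinearIndependent ℂ ·) (_root_.funext fun p => ?_)) hl
    simp [v, m, aeval_monomial, Finsupp.prod_fintype])
  have := big_fd hc ((0 : ℕ) : ℤ) (n * b)
  have h3 := hv.fintype_card_le_finrank
  rw [← big_rank, Fintype.card_fun, Fintype.card_fin, Fintype.card_fin] at h3
  unfold hz
  exact_mod_cast h3

/-- Multiplication by a nonzero element that maps sections to sections. -/
theorem hz_le [Fintype ι] [Nonempty ι] (hc : Cart x g) {t a t' a' : ℕ} {s : K} (hs : s ≠ 0)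
    (h : ∀ r, Sec x g t a r → Sec x g t' a' (s * r)) :
    hz g (Idl.bot x) t a ≤ hz g (Idl.bot x) t' a' := by
  have := big_fd hc t' a'
  rw [hz, hz, big_rank, big_rank, Nat.cast_le]
  exact (finrank_le_of_mul _ _ hs h).2

/-- Sketch: `main_sec` gives a nonzero section `s` of `-L + k H`; multiply by `s ^ t`. A section
of `μ H` lies in `Bd x μ`; `cd_dim`. -/
theorem dim_up [Fintype ι] (i₀ : ι) (one : x i₀ = 1)
    (gen : IntermediateField.adjoin ℂ (Set.range fun i => (x i : K)) = ⊤) (hc : Cart x g) {n : ℕ}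
    (tr : Algebra.trdeg ℂ K = n) : ∃ (k : ℕ) (B : ℚ), ∀ t a : ℕ,
      hz g (Idl.bot x) t a ≤ B * ((a : ℚ) + k * t + 1) ^ n := by
  have : Nonempty ι := ⟨i₀⟩
  obtain ⟨k, hk⟩ := main_sec hc (-1) i₀
  obtain ⟨B, hB⟩ := cd_dim _ gen tr
  refine ⟨k, B, fun t a => ?_⟩
  obtain ⟨h1, h2⟩ := hB (a + k * t)
  have h3 := (finrank_le_of_mul (SecS x g t a) (Bd (fun i => (x i : K)) (a + k * t))
    (pow_ne_zero t (fr_ne x g (-1) k i₀)) fun r hr => big_bd (g := g) (by
      have h := sec_mul (sec_pow hk t) hr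
      rwa [mul_neg_one, neg_add_cancel, add_comm, mul_comm t] at h)).2
  rw [hz, big_rank]
  exact_mod_cast h3.trans h2

/-- If `t L - H` has a section, `L` is big. Sketch: `t ≥ 0` is arbitrary. `s ^ (n * b) * r` is a
section of `(n * b * t, a₀)` for every section `r` of `(0, n * b)` (use `x i₀ = 1`);
`cf_ne_of_growth` with `n * t` in place of `t`. -/
theorem big_of_sec [Fintype ι] (i₀ : ι) (one : x i₀ = 1)
    (gen : IntermediateField.adjoin ℂ (Set.range fun i => (x i : K)) = ⊤) (hc : Cart x g) {n : ℕ}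
    (tr : Algebra.trdeg ℂ K = n) {P : P2} (hP : Rep g (Idl.bot x) P) (hd : Dg P n) {t : ℕ} {s : K}
    (hs : s ≠ 0) (h : Sec x (tw x g t 1) 1 0 s) : cf P n 0 ≠ 0 := by
  have : Nonempty ι := ⟨i₀⟩
  obtain ⟨a₀, ha⟩ := hP
  refine cf_ne_of_growth hd (n * t) a₀ fun b => (dim_low i₀ one gen hc tr b).trans ?_
  have h1 := hz_le hc (t := 0) (a := n * b) (t' := n * b * t) (a' := a₀)
    (pow_ne_zero (n * b) hs) fun r hr i => by
      have h2 := mul_mem (mul_mem (pow_mem (h i) (n * b)) (hr i)) (pow_mem (Basic_mem x i i₀) a₀)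
      have h3 := (x i).ne_zero
      have h4 := (g i).ne_zero
      refine (congrArg (· ∈ chart x i) ?_).mp h2
      simp only [tw, one, zpow_natCast, zpow_one, pow_zero, pow_one, mul_one, one_mul, div_pow,
        Units.val_one, one_pow, Units.val_div_eq_div_val, Units.val_pow_eq_pow_val, ← pow_mul,
        mul_comm t]
      field_simp
  rw [ha (n * b * t) a₀ le_rfl] at h1
  refine h1.trans_eq ?_
  congr 1
  push_cast
  ring

/-- Sketch: let `Y = adj bot (x i₀)`. With `G = tw x g t 1`, `rank_le` and `colon_bot` give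
`h (bot, G, i + 1) ≤ h (bot, G, i) + h (Y, G, i + 1)`, and `h (bot, G, 0) = 0` (`h0_bot`). Sum
up to `i + 1 = a + 1` (`fr_tw`) and apply `td_of_bound`. -/
theorem td_of_no_sec [Fintype ι] [Nonempty ι] (hc : Cart x g) {ν : ℕ}
    (hb : ∀ J : Idl x, NZ J → Bnd g ν J) {P : P2} (hP : Rep g (Idl.bot x) P)
    (h : ∀ (t : ℕ) (s : K), Sec x (tw x g t 1) 1 0 s → s = 0) : TD ν P := by
  obtain ⟨i₀⟩ := id ‹Nonempty ι›
  have h0 : (x i₀ : K) ^ 1 ≠ 0 := pow_ne_zero _ (x i₀).ne_zero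
  have key : ∀ i : ℕ, ∃ C : ℚ, ∀ t : ℕ,
      (Module.finrank ℂ ((Idl.bot x).H0 (tw x g t 1) 1 i) : ℚ) ≤ C * ((t : ℚ) + 1) ^ ν := by
    intro i
    induction i with
    | zero =>
      refine ⟨0, fun t => ?_⟩
      rw [big_rank, (SecS x _ 1 0).eq_bot_iff.2 (h t), finrank_bot, Nat.cast_zero, zero_mul]
    | succ i ih =>
      obtain ⟨C, hC⟩ := ih
      obtain ⟨C', hC'⟩ := hb _ (nz_adj hc (Idl.bot x) (sec_x x g i₀ 1) h0) 1 (i + 1)
      refine ⟨C + C', fun t => ?_⟩
      have e : (Idl.bot x).adj (cart_tw hc t 1) (sec_x x _ i₀ 1) =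
          (Idl.bot x).adj hc (sec_x x g i₀ 1) :=
        main_ext fun l => Submodule.ext fun r => by
          rw [Idl.mem_adj, Idl.mem_adj, fr_zero, fr_zero]
      have h1 := rank_le (cart_tw hc t 1) (Idl.bot x) (sec_x x _ i₀ 1) 1 i
        (fd_bot (cart_tw hc t 1) _ _) (e ▸ (hC' t).1)
      rw [colon_bot _ _ h0, e, add_zero] at h1
      rw [add_mul]
      exact (Nat.cast_le.2 h1).trans (by
        rw [Nat.cast_add]
        exact add_le_add (hC t) (hC' t).2)
  obtain ⟨a₀, ha⟩ := hP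
  refine td_of_bound (a₀ := a₀) fun a h1 => (key (a + 1)).imp fun C hC t => ?_
  obtain ⟨e⟩ := h0_congr (Idl.bot x) (fr_tw x g t 1 a)
  rw [← ha t a h1, hz, Nat.abs_cast, ← e.finrank_eq]
  exact hC t

end Pool.Agent.Lib.MP_bc213e_ag.OW
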