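import Pool.Agent.Lib.MP_bc213e_ag.OW.H.Mono
import Pool.Agent.Lib.MP_bc213e_ag.OW.C.Low
import Pool.Agent.Lib.MP_bc213e_ag.OW.C.Cone

/-! Growth of sections on proper subschemes for all twists. -/

namespace Pool.Agent.Lib.MP_bc213e_ag.OW

open Pool.Agent.Lib.MP_bc213e_ag.Hyp Pool.Agent.Lib.MP_bc213e_ag.KBB MvPolynomial

variable {K ι : Type} [Field K] [Algebra ℂ K] {x g : ι → Kˣ}

theorem cart_tw (hc : Cart x g) (t b : ℕ) : Cart x (tw x g t b) := by
  intro i j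
  obtain ⟨e, he⟩ := hc i j
  refine ⟨e * t + b, ?_⟩
  have h1 := (x i).ne_zero
  have h2 := (x j).ne_zero
  have h3 := (g j).ne_zero
  have e1 : (tw x g t b i : K) / tw x g t b j * ((x i : K) / x j) ^ (e * t + b) =
      ((g i : K) / g j * ((x i : K) / x j) ^ e) ^ t := by
    simp only [tw, Units.val_div_eq_div_val, Units.val_pow_eq_pow_val]
    rw [pow_add, mul_pow, ← pow_mul, div_pow _ _ b, div_pow _ _ t]
    field_simp
  rw [e1]
  exact pow_mem he t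

theorem fr_tw (x g : ι → Kˣ) (t b i : ℕ) (l : ι) :
    fr x (tw x g t b) 1 (i + b) l = fr x g t i l := by
  have h1 := (x l).ne_zero
  simp only [fr, tw, Units.val_div_eq_div_val, Units.val_pow_eq_pow_val, zpow_one, zpow_natCast,
    pow_add]
  field_simp

theorem fr_tw_add (x g : ι → Kˣ) (t b δ i : ℕ) (l : ι) :
    fr x (tw x g t (b + δ)) 1 (i + δ) l = fr x (tw x g t b) 1 i l := by
  have h1 := (x l).ne_zero
  simp only [fr, tw, Units.val_div_eq_div_val, Units.val_pow_eq_pow_val, zpow_one, pow_add,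
    Units.val_mul]
  field_simp

/-- The spaces are equal if the generators agree. -/
theorem h0_congr (J : Idl x) {g' : ι → Kˣ} {t t' : ℤ} {a a' : ℕ}
    (h : ∀ i, fr x g t a i = fr x g' t' a' i) :
    Nonempty (J.H0 g t a ≃ₗ[ℂ] J.H0 g' t' a') := by
  have e1 : J.C0 g t a = J.C0 g' t' a' := Submodule.ext fun s => by
    change (∀ i, s i / fr x g t a i ∈ J.J i) ↔ ∀ i, s i / fr x g' t' a' i ∈ J.J i
    rw [funext h]
  have e2 : J.Z0 g t a = J.Z0 g' t' a' := Submodule.ext fun s => by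
    change ((∀ i, s i / fr x g t a i ∈ chart x i) ∧
      ∀ i l, L2 x J.J i l ((s l - s i) / fr x g t a i)) ↔
      (∀ i, s i / fr x g' t' a' i ∈ chart x i) ∧ ∀ i l, L2 x J.J i l ((s l - s i) / fr x g' t' a' i)
    rw [funext h]
  have k : ∀ C C' Z Z' : Submodule ℂ (ι → K), C = C' → Z = Z' →
      Nonempty (Z.map C.mkQ ≃ₗ[ℂ] Z'.map C'.mkQ) := by
    rintro _ _ _ _ rfl rfl
    exact ⟨LinearEquiv.refl _ _⟩
  exact k _ _ _ _ e1 e2

theorem bnd_sec {a : ℕ} {f : K} (h : Sec x g 0 a f) (g' : ι → Kˣ) : Sec x g' 0 a f := fun i => by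
  have h1 := h i
  rwa [zpow_zero, ← zpow_zero (g' i : K)] at h1

theorem bnd_has {J : Idl x} {a : ℕ} {f : K} (h : J.Has g 0 a f) (g' : ι → Kˣ) :
    J.Has g' 0 a f := fun i => by
  have h1 := h i
  rwa [fr_zero, ← fr_zero x g'] at h1

/-- Sketch: `J.Prime` does not depend on `g`. Take `exists_rd` for `G = tw x g t b`; `Rd.fd`.
Multiplication by `x i₀ ^ c` is injective (`exists_seq`, `colon_prime`); choose `c` with
`i + c = a + b`, `a ≥ a₀`, and use `fr_tw`, `td_bound`. -/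
theorem bnd_prime [Fintype ι] (hc : Cart x g) {ν : ℕ} {J : Idl x} (hp : J.Prime g) {i₀ : ι}
    (h0 : (1 : K) ∉ J.J i₀) {P : P2} (hP : Rep g J P) (h : TD ν P) : Bnd g ν J := by
  intro b i
  obtain ⟨a₀, hP⟩ := hP
  obtain ⟨C, hC⟩ := td_bound h ((a₀ + i : ℕ) : ℚ)
  refine ⟨C, fun t => ?_⟩
  have hG := cart_tw hc t b
  have hpG : J.Prime (tw x g t b) := fun a a' f f' h1 h2 h3 =>
    (hp a a' f f' (bnd_sec h1 g) (bnd_sec h2 g) (bnd_has h3 g)).imp (bnd_has · _) (bnd_has · _)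
  obtain ⟨F, _, _, ⟨R⟩⟩ := exists_rd hG J hpG h0
  refine ⟨R.fd hG 1 i, ?_⟩
  have hf := sec_x x (tw x g t b) i₀ (a₀ + b)
  have hn := main_not_has (g := tw x g t b) h0 0 (a₀ + b)
  rw [fr_zero] at hn
  obtain ⟨μ, -, hμ, -⟩ := J.exists_seq hG hf 1 i
  have := R.fd hG (1 + 0) (i + (a₀ + b))
  have h1 := LinearMap.finrank_le_finrank_of_injective hμ
  rw [colon_prime R hG hf hn, rank_congr J (g' := g) (t := 1 + 0) (t' := t) (a' := a₀ + i)
    fun l => by rw [add_zero, ← add_assoc, fr_tw, add_comm]] at h1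
  have h2 := hP t (a₀ + i) (Nat.le_add_right _ _)
  unfold hz at h2
  refine le_trans ?_ ((le_abs_self _).trans (hC t))
  rw [← h2]
  exact_mod_cast h1

/-- Sketch: use `G = tw x g t (b + δ)`, `fd_ext`, `rank_le`, `fr_tw_add`. The ideal sheaves
`colon` and `adj` for `G` and for `g` are equal (`main_ext`, `fr_zero`). -/
theorem bnd_ext (hc : Cart x g) {ν : ℕ} {J : Idl x} {δ : ℕ} {f : K} (hf : Sec x g 0 δ f)
    (h1 : Bnd g ν (J.colon hc hf)) (h2 : Bnd g ν (J.adj hc hf)) : Bnd g ν J := by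
  intro b i
  obtain ⟨C₁, k1⟩ := h1 (b + δ) i
  obtain ⟨C₂, k2⟩ := h2 (b + δ) (i + δ)
  refine ⟨C₁ + C₂, fun t => ?_⟩
  have hG := cart_tw hc t (b + δ)
  have hf' := bnd_sec hf (tw x g t (b + δ))
  have e1 : J.colon hG hf' = J.colon hc hf := main_ext fun l => Submodule.ext fun r => by
    rw [J.mem_colon, J.mem_colon, fr_zero, fr_zero]
  have e2 : J.adj hG hf' = J.adj hc hf := main_ext fun l => Submodule.ext fun r => by
    rw [J.mem_adj, J.mem_adj, fr_zero, fr_zero]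
  obtain ⟨f1, r1⟩ := k1 t
  obtain ⟨f2, r2⟩ := k2 t
  have a1 := J.fd_ext hG hf' 1 i
  have a2 := rank_le hG J hf' 1 i
  rw [e1, e2, add_zero] at a1 a2
  have a3 := a1 f1 f2
  have a4 := a2 a3 f2
  obtain ⟨e⟩ := h0_congr J (fr_tw_add x g t b δ i)
  refine ⟨e.finiteDimensional, ?_⟩
  rw [← e.finrank_eq, add_mul]
  refine le_trans ?_ (add_le_add r1 r2)
  exact_mod_cast a4

/-- Sketch: Noetherian induction as in `KBB.good` (`h0_of_one`, `not_prime`, `nz_of_gt`). -/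
theorem bnd_nz [Fintype ι] (hc : Cart x g) (hn : Nef x g) {ν : ℕ}
    (h : ∀ (J : Idl x) (i₀ : ι) (P : P2), J.Prime g → NZ J → (1 : K) ∉ J.J i₀ → Rep g J P → TD ν P)
    (J : Idl x) (hJ : NZ J) : Bnd g ν J := by
  refine Idl.induction (fun J => NZ J → Bnd g ν J) (fun J ih hJ => ?_) J hJ
  by_cases h1 : ∀ i, (1 : K) ∈ J.J i
  · refine fun b i => ⟨0, fun t => ?_⟩
    rw [J.h0_of_one h1, finrank_bot, Nat.cast_zero, zero_mul]
    exact ⟨inferInstance, le_rfl⟩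
  obtain ⟨i₀, h0⟩ := not_forall.1 h1
  by_cases hp : J.Prime g
  · obtain ⟨P, hP⟩ := rep_nef hc hn J
    exact bnd_prime hc hp h0 hP (h J i₀ P hp hJ h0 hP)
  obtain ⟨a, f, hf, n1, n2⟩ := not_prime hc hp
  exact bnd_ext hc hf (ih _ (J.le_colon hc hf) n1 (nz_of_gt n1))
    (ih _ (J.le_adj hc hf) n2 (nz_of_gt n2))

end Pool.Agent.Lib.MP_bc213e_ag.OW
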