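import Mathlib

/-! Every nonzero prime of an affine domain contains a prime of codimension one. -/

namespace Pool.Agent.Lib.MP_bc213e_ag.OW

theorem codA_option {A F κ : Type} [CommRing A] [IsDomain A] [Algebra ℂ A] [CommRing F]
    [Algebra ℂ F] (φ : A →ₐ[ℂ] F) (b : κ → A) (hb : AlgebraicIndependent ℂ fun k => φ (b k))
    {r : A} (h0 : r ≠ 0) (hr : φ r = 0) :
    AlgebraicIndependent ℂ fun o : Option κ => o.elim r b := by
  have hb' : AlgebraicIndependent ℂ b := AlgebraicIndependent.of_comp φ hb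
  refine (hb'.option_iff_transcendental r).2 fun h => ?_
  obtain ⟨⟨c, hc⟩, hc0, d, hd⟩ := h.exists_nonzero_dvd (mem_nonZeroDivisors_of_ne_zero h0)
  have hc' := hc
  rw [Algebra.adjoin_range_eq_range_aeval] at hc'
  obtain ⟨p, hp⟩ := hc'
  have hp' : MvPolynomial.aeval b p = c := hp
  have h1 : φ c = 0 := by
    have h2 : c = r * d := hd
    rw [h2, map_mul, hr, zero_mul]
  have h3 : MvPolynomial.aeval (fun k => φ (b k)) p = 0 := by
    rw [← h1, ← hp', MvPolynomial.comp_aeval_apply]
  refine hc0 (Subtype.ext ?_)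
  change c = 0
  rw [← hp', hb.eq_zero_of_aeval_eq_zero p h3, map_zero]

theorem codA_int (R S : Type) [CommRing R] [CommRing S] [IsDomain S] [Algebra ℂ R] [Algebra ℂ S]
    [Algebra R S] [IsScalarTower ℂ R S] [FaithfulSMul R S] [Algebra.IsIntegral R S] :
    Algebra.trdeg ℂ S = Algebra.trdeg ℂ R := by
  have := (FaithfulSMul.algebraMap_injective R S).isDomain
  rw [← trdeg_add_eq ℂ R (A := S), trdeg_eq_zero (R := R) (A := S), add_zero]

/-- Sketch: some variable `s` occurs in `π` (it is not a unit and not zero). The classes of the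
other variables are algebraically independent (a nonzero multiple of `π` has positive degree in
`s`) and the class of `s` is algebraic over them, so they form a transcendence basis. -/
theorem trdeg_hyper {n : ℕ} {π : MvPolynomial (Fin n) ℂ} (h : Prime π) :
    Algebra.trdeg ℂ (MvPolynomial (Fin n) ℂ ⧸ Ideal.span {π}) + 1 = n := by
  classical
  have hp : (Ideal.span {π}).IsPrime := (Ideal.span_singleton_prime h.ne_zero).2 h
  refine le_antisymm ?_ ?_
  · obtain ⟨s, hs⟩ := exists_isTranscendenceBasis ℂ (MvPolynomial (Fin n) ℂ ⧸ Ideal.span {π})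
    choose b hb using fun a : s => Ideal.Quotient.mkₐ_surjective ℂ (Ideal.span {π}) a.1
    have h1 := (codA_option (Ideal.Quotient.mkₐ ℂ (Ideal.span {π})) b
      (by rw [funext hb]; exact hs.1) h.ne_zero
      (Ideal.Quotient.eq_zero_iff_mem.2 (Ideal.mem_span_singleton_self π))).cardinalMk_le_trdeg
    rw [← hs.cardinalMk_eq_trdeg]
    simpa using h1
  · obtain ⟨s, hs⟩ : ∃ s, MvPolynomial.degreeOf s π ≠ 0 := by
      by_contra h0
      have h1 : π.vars = ∅ := Finset.eq_empty_of_forall_notMem fun s hs =>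
        h0 ⟨s, MvPolynomial.mem_vars_iff_degreeOf_ne_zero.1 hs⟩
      have h2 := MvPolynomial.vars_eq_empty_iff_eq_C.1 h1
      refine h.not_isUnit ?_
      rw [h2]
      exact (isUnit_iff_ne_zero.2 fun h3 => h.ne_zero (by rw [h2, h3, map_zero])).map _
    have h1 : AlgebraicIndependent ℂ fun i : {i // i ≠ s} =>
        Ideal.Quotient.mkₐ ℂ (Ideal.span {π}) (MvPolynomial.X i.1) := by
      refine algebraicIndependent_iff.2 fun p h2 => not_not.1 fun h0 => hs ?_
      rw [← MvPolynomial.comp_aeval_apply] at h2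
      obtain ⟨q, hq⟩ := Ideal.mem_span_singleton.1 (Ideal.Quotient.eq_zero_iff_mem.1 h2)
      have h3 : MvPolynomial.rename Subtype.val p = π * q := by
        rw [MvPolynomial.rename_eq_aeval]
        exact hq
      have h4 : π * q ≠ 0 := fun h4 => h0
        (MvPolynomial.rename_injective _ Subtype.val_injective (by rw [h3, h4, map_zero]))
      have h5 : MvPolynomial.degreeOf s (π * q) = 0 := by
        by_contra h5
        rw [← h3] at h5
        obtain ⟨i, -, hi⟩ := MvPolynomial.mem_vars_rename _ _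
          (MvPolynomial.mem_vars_iff_degreeOf_ne_zero.2 h5)
        exact i.2 hi
      rw [MvPolynomial.degreeOf_mul_eq h.ne_zero (right_ne_zero_of_mul h4)] at h5
      omega
    have h2 : (n : Cardinal) = Cardinal.mk {i // i ≠ s} + 1 := by
      rw [← Cardinal.mk_option, Cardinal.mk_congr (Equiv.optionSubtypeNe s), Cardinal.mk_fin]
    rw [h2]
    exact add_le_add_left h1.cardinalMk_le_trdeg 1

/-- Sketch: Noether normalisation `B = MvPolynomial (Fin n) ℂ → A`
(`exists_integral_inj_algHom_of_fg`). The contraction of `p` is not zero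
(`Ideal.comap_ne_bot_of_integral_mem`), so it contains a prime element `π`
(`Ideal.IsPrime.exists_mem_prime_of_ne_bot`). Going down
(`Ideal.exists_ideal_le_liesOver_of_le`, instance in `RingTheory/IntegralClosure/GoingDown`) gives
`q ≤ p` over `span {π}`. `A ⧸ q` is integral over `B ⧸ span {π}` and `A` over `B`
(`trdeg_add_eq`, `trdeg_eq_zero`, `MvPolynomial.trdeg_of_isDomain`). -/
theorem exists_prime_codim_one {A : Type} [CommRing A] [IsDomain A] [Algebra ℂ A]
    [Algebra.FiniteType ℂ A] (p : Ideal A) [p.IsPrime] (h : p ≠ ⊥) :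
    ∃ q : Ideal A, q.IsPrime ∧ q ≠ ⊥ ∧ q ≤ p ∧
      Algebra.trdeg ℂ (A ⧸ q) + 1 = Algebra.trdeg ℂ A := by
  obtain ⟨n, g, inj, int⟩ := exists_integral_inj_algHom_of_fg ℂ A
  let : Algebra (MvPolynomial (Fin n) ℂ) A := g.toRingHom.toAlgebra
  have : IsScalarTower ℂ (MvPolynomial (Fin n) ℂ) A :=
    .of_algebraMap_eq fun c => (g.commutes c).symm
  have : FaithfulSMul (MvPolynomial (Fin n) ℂ) A :=
    (faithfulSMul_iff_algebraMap_injective _ _).2 inj
  have hi : Algebra.IsIntegral (MvPolynomial (Fin n) ℂ) A := ⟨int⟩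
  obtain ⟨x, hx, h0⟩ := Submodule.exists_mem_ne_zero_of_ne_bot h
  obtain ⟨π, h1, hπ⟩ := Ideal.IsPrime.exists_mem_prime_of_ne_bot
    (I := p.under (MvPolynomial (Fin n) ℂ)) inferInstance
    (Ideal.comap_ne_bot_of_integral_mem h0 hx (hi.isIntegral x))
  have hp : (Ideal.span {π}).IsPrime := (Ideal.span_singleton_prime hπ.ne_zero).2 hπ
  obtain ⟨q, h2, hq, h3⟩ := p.exists_ideal_le_liesOver_of_le (p := Ideal.span {π})
    (q := p.under (MvPolynomial (Fin n) ℂ)) ((Ideal.span_singleton_le_iff_mem _).2 h1)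
  refine ⟨q, hq, fun h4 => hπ.ne_zero (inj ?_), h2, ?_⟩
  · have h5 : π ∈ q.under (MvPolynomial (Fin n) ℂ) :=
      h3.over ▸ Ideal.mem_span_singleton_self π
    rw [h4] at h5
    exact h5.trans (map_zero g).symm
  · rw [codA_int (MvPolynomial (Fin n) ℂ ⧸ Ideal.span {π}) (A ⧸ q), trdeg_hyper hπ,
      codA_int (MvPolynomial (Fin n) ℂ) A, MvPolynomial.trdeg_of_isDomain]
    simp

end Pool.Agent.Lib.MP_bc213e_ag.OW
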