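import Pool.Agent.Lib.MP_bc213e_ag.OW.C.Defs

/-! Definitions for the comparison of two notions of numerical dimension. -/

namespace Pool.Agent.Lib.MP_bc213e_ag.OW

open Pool.Agent.Lib.MP_bc213e_ag.Hyp Pool.Agent.Lib.MP_bc213e_ag.KBB MvPolynomial

/-- The degree in the first variable is at most `ν`. -/
def TD (ν : ℕ) (P : P2) : Prop := ∀ i j, ν < i → cf P i j = 0

/-- Nonnegative on a quadrant. -/
def NN (P : P2) : Prop := ∃ a₀ : ℕ, ∀ t a : ℕ, a₀ ≤ a → 0 ≤ ev P t a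

variable {K ι : Type} [Field K] [Algebra ℂ K] {x g : ι → Kˣ}

/-- The generators of `t L - b H`. -/
def tw (x g : ι → Kˣ) (t b : ℕ) : ι → Kˣ := fun l => g l ^ t / x l ^ b

/-- The sections of `(O / J)(t L + (i - b) H)` grow at most like `t ^ ν`. -/
def Bnd (g : ι → Kˣ) (ν : ℕ) (J : Idl x) : Prop :=
  ∀ b i : ℕ, ∃ C : ℚ, ∀ t : ℕ, FiniteDimensional ℂ (J.H0 (tw x g t b) 1 i) ∧
    (Module.finrank ℂ (J.H0 (tw x g t b) 1 i) : ℚ) ≤ C * ((t : ℚ) + 1) ^ ν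

theorem below_of_nef (hn : Nef x g) : Below x g := fun _ _ _ _ _ _ R => R.nef hn

end Pool.Agent.Lib.MP_bc213e_ag.OW
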