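import Pool.Agent.Lib.MP_bc213e_ag.OW.H.CodA
import Pool.Agent.Lib.MP_bc213e_ag.OW.H.Defs

/-! Every proper integral subvariety lies in one of codimension one. -/

namespace Pool.Agent.Lib.MP_bc213e_ag.OW

open Pool.Agent.Lib.MP_bc213e_ag.Hyp Pool.Agent.Lib.MP_bc213e_ag.KBB MvPolynomial

variable {K ι : Type} [Field K] [Algebra ℂ K] {x g : ι → Kˣ}

theorem codb_trdeg {A F : Type} [CommRing A] [Algebra ℂ A] [Field F] [Algebra ℂ F]
    (ψ : A →ₐ[ℂ] F) (hi : Function.Injective ψ) (hs : ∀ z, ∃ a b, z = ψ a / ψ b) :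
    Algebra.trdeg ℂ F = Algebra.trdeg ℂ A := by
  let _ := ψ.toRingHom.toAlgebra
  have : IsScalarTower ℂ A F := IsScalarTower.of_algebraMap_eq fun c => (ψ.commutes c).symm
  have : Nontrivial A := ψ.toRingHom.domain_nontrivial
  have : FaithfulSMul A F := (faithfulSMul_iff_algebraMap_injective A F).2 hi
  have : IsFractionRing A F := IsFractionRing.of_field A F hs
  have : Algebra.IsAlgebraic A F := IsLocalization.isAlgebraic F (nonZeroDivisors A)
  rw [← trdeg_add_eq ℂ A (A := F), trdeg_eq_zero (R := A), add_zero]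

theorem codb_frac (i₀ : ι) (one : x i₀ = 1)
    (gen : IntermediateField.adjoin ℂ (Set.range fun i => (x i : K)) = ⊤) (i : ι) (z : K) :
    ∃ a ∈ chart x i, ∃ b ∈ chart x i, z = a / b := by
  have h : ∀ j, (x j : K) / x i ∈
      IntermediateField.adjoin ℂ (Set.range fun j => (x j : K) / x i) := fun j =>
    IntermediateField.subset_adjoin _ _ ⟨j, rfl⟩
  have h1 : IntermediateField.adjoin ℂ (Set.range fun i => (x i : K)) ≤
      IntermediateField.adjoin ℂ (Set.range fun j => (x j : K) / x i) := by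
    refine IntermediateField.adjoin_le_iff.2 ?_
    rintro _ ⟨j, rfl⟩
    have h2 := div_mem (h j) (h i₀)
    rwa [div_div_div_cancel_right₀ (x i).ne_zero, one, Units.val_one, div_one] at h2
  exact IntermediateField.mem_adjoin_iff_div.1 (h1 (gen ▸ IntermediateField.mem_top))

/-- The ideal sheaf attached to a prime of the chart `i₀`. Sketch:
`J l = {r ∈ chart x l | ∃ e, r * (x l / x i₀) ^ e ∈ q}` (`chart_trans`). -/
theorem exists_idl (g : ι → Kˣ) (i₀ : ι) (q : Ideal (chart x i₀)) [q.IsPrime] :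
    ∃ J : Idl x, J.Prime g ∧ (∀ r : chart x i₀, (r : K) ∈ J.J i₀ ↔ r ∈ q) ∧
      ∀ l, ∀ r ∈ J.J l, ∃ (e : ℕ) (s : chart x i₀), s ∈ q ∧ r * ((x l : K) / x i₀) ^ e = s := by
  have hu : ∀ l e, ((x l : K) / x i₀) ^ e ∈ chart x i₀ := fun l e => pow_mem (Basic_mem x i₀ l) e
  have hm : ∀ a ∈ chart x i₀, ∀ z : K, (∃ s : chart x i₀, s ∈ q ∧ z = s) →
      ∃ s : chart x i₀, s ∈ q ∧ a * z = s := by
    rintro a ha _ ⟨s, hs, rfl⟩
    exact ⟨⟨a, ha⟩ * s, q.mul_mem_left _ hs, rfl⟩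
  let M : ι → Submodule ℂ K := fun l =>
    { carrier := {r | r ∈ chart x l ∧
        ∃ (e : ℕ) (s : chart x i₀), s ∈ q ∧ r * ((x l : K) / x i₀) ^ e = s}
      add_mem' := by
        rintro a b ⟨ha, e, h1⟩ ⟨hb, e', h2⟩
        obtain ⟨s, hs, h3⟩ := hm _ (hu l e') _ h1
        obtain ⟨s', hs', h4⟩ := hm _ (hu l e) _ h2
        refine ⟨add_mem ha hb, e + e', s + s', q.add_mem hs hs', ?_⟩
        rw [Subalgebra.coe_add, ← h3, ← h4]
        ring
      zero_mem' := ⟨zero_mem _, 0, 0, q.zero_mem, zero_mul _⟩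
      smul_mem' := by
        rintro c a ⟨ha, e, h1⟩
        refine ⟨Subalgebra.smul_mem _ ha c, e, ?_⟩
        rw [Algebra.smul_def, mul_assoc]
        exact hm _ (Subalgebra.algebraMap_mem _ c) _ h1 }
  let J : Idl x :=
    { J := M
      le := fun _ _ h => h.1
      mul := by
        rintro l a ha r ⟨hr, e, h1⟩
        obtain ⟨d, hd⟩ := chart_trans x l i₀ ha
        refine ⟨mul_mem ha hr, d + e, ?_⟩
        rw [pow_add, mul_mul_mul_comm]
        exact hm _ hd _ h1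
      glue := by
        rintro i l r ⟨hr, e, h1⟩
        obtain ⟨d, hd⟩ := chart_trans x i l hr
        refine ⟨d + e, ?_, d + e, ?_⟩
        · rw [pow_add, ← mul_assoc]
          exact mul_mem hd (pow_mem (Basic_mem x l i) e)
        · rw [mul_assoc, ← mul_pow, div_mul_div_cancel₀ (x l).ne_zero, pow_add, mul_left_comm]
          exact hm _ (hu i d) _ h1 }
  have h0 : ∀ r : chart x i₀, (r : K) ∈ J.J i₀ ↔ r ∈ q := by
    refine fun r => ⟨?_, fun h => ⟨r.2, 0, r, h, by rw [pow_zero, mul_one]⟩⟩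
    rintro ⟨-, e, s, hs, h⟩
    rw [div_self (x i₀).ne_zero, one_pow, mul_one] at h
    rwa [Subtype.ext h]
  have h1 : ∀ (a : ℕ) (f : K) (hf : Sec x g 0 a f),
      (⟨_, sec_iff_fr.1 hf i₀⟩ : chart x i₀) ∈ q → J.Has g 0 a f := by
    refine fun a f hf h l => ⟨sec_iff_fr.1 hf l, a, _, h, ?_⟩
    change _ = f / fr x g 0 a i₀
    rw [fr_zero, fr_zero, div_pow, div_mul_div_cancel₀ (pow_ne_zero _ (x l).ne_zero)]
  refine ⟨J, fun a b f f' hf hf' h => ?_, h0, fun _ _ h => h.2⟩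
  refine (Ideal.IsPrime.mem_or_mem inferInstance ((h0 _).1 ?_)).imp (h1 a f hf) (h1 b f' hf')
  have h2 := h i₀
  have e1 := fr_add x g 0 0 a b i₀
  rw [add_zero] at e1
  rwa [e1, mul_div_mul_comm] at h2

/-- Sketch: `R.ρ` maps the chart `i` onto the chart `i` of `R.x'` with kernel `J.J i`
(`map_chart`, `surj_chart`, `ker`), and `F` is the fraction field of that chart (`R.gen`). -/
theorem rd_trdeg_eq {J : Idl x} {F : Type} [Field F] [Algebra ℂ F] (R : Rd x g J F) {i : ι}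
    (hi : (1 : K) ∉ J.J i) (q : Ideal (chart x i)) (hq : ∀ r : chart x i, (r : K) ∈ J.J i ↔ r ∈ q) :
    Algebra.trdeg ℂ F = Algebra.trdeg ℂ (chart x i ⧸ q) := by
  let φ : chart x i →ₐ[ℂ] F := AlgHom.ofLinearMap (R.ρ ∘ₗ (chart x i).val.toLinearMap)
    R.ρ_one fun a c => R.ρ_mul _ (R.le ⟨i, hi⟩ _ a.2) _ (R.le ⟨i, hi⟩ _ c.2)
  have hk : ∀ r, φ r = 0 ↔ r ∈ q := fun r => (R.ker ⟨i, hi⟩ _ r.2).trans (hq r)
  refine codb_trdeg (Ideal.Quotient.liftₐ q φ fun a ha => (hk a).2 ha)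
    ((injective_iff_map_eq_zero _).2 fun a ha => ?_) fun z => ?_
  · obtain ⟨a, rfl⟩ := Ideal.Quotient.mk_surjective a
    exact Ideal.Quotient.eq_zero_iff_mem.2 ((hk a).1 ha)
  · obtain ⟨a, ha, b, hb, rfl⟩ := codb_frac R.i₀ R.one R.gen ⟨i, hi⟩ z
    obtain ⟨a, ha', rfl⟩ := R.surj_chart _ ha
    obtain ⟨b, hb', rfl⟩ := R.surj_chart _ hb
    exact ⟨Ideal.Quotient.mk q ⟨a, ha'⟩, Ideal.Quotient.mk q ⟨b, hb'⟩, rfl⟩

/-- Sketch: `p = J.J i₁` as a prime of the chart `i₁` (`res_prime`); it is not zero (`J.glue`).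
`exists_prime_codim_one`, `exists_idl`. For `J₁ ≤ J` use `J.glue`, `res_not`, `res_pow`. The
chart `i₁` has fraction field `K` by `gen` and `one`. -/
theorem exists_codim_one [Fintype ι] (i₀ : ι) (one : x i₀ = 1)
    (gen : IntermediateField.adjoin ℂ (Set.range fun i => (x i : K)) = ⊤) {J : Idl x}
    (hp : J.Prime g) (hJ : NZ J) {i₁ : ι} (h1 : (1 : K) ∉ J.J i₁) :
    ∃ J₁ : Idl x, J₁.Prime g ∧ NZ J₁ ∧ (∀ i, J₁.J i ≤ J.J i) ∧
      ∀ (F : Type) [Field F] [Algebra ℂ F], Rd x g J₁ F →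
        Algebra.trdeg ℂ F + 1 = Algebra.trdeg ℂ K := by
  let P : Ideal (chart x i₁) :=
    { carrier := {r | (r : K) ∈ J.J i₁}
      add_mem' := fun ha hb => (J.J i₁).add_mem ha hb
      zero_mem' := (J.J i₁).zero_mem
      smul_mem' := fun s r hr => J.mul i₁ _ s.2 _ hr }
  have : P.IsPrime := ⟨(Ideal.ne_top_iff_one _).2 h1, fun {a b} h => res_prime hp a.2 b.2 h⟩
  have : Algebra.FiniteType ℂ (chart x i₁) :=
    (Subalgebra.fg_iff_finiteType _).1 (Subalgebra.fg_def.2 ⟨_, Set.finite_range _, rfl⟩)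
  have hP : P ≠ ⊥ := by
    obtain ⟨i, r, hr, h0⟩ := hJ
    obtain ⟨e, he⟩ := J.glue i i₁ r hr
    exact (Submodule.ne_bot_iff _).2 ⟨⟨_, J.le _ _ he⟩, he, fun h => mul_ne_zero h0
      (pow_ne_zero e (div_ne_zero (Units.ne_zero _) (Units.ne_zero _))) (congrArg Subtype.val h)⟩
  obtain ⟨q, hq, hq0, hle, htr⟩ := exists_prime_codim_one P hP
  obtain ⟨J₁, h2, h3, h4⟩ := exists_idl g i₁ q
  refine ⟨J₁, h2, ?_, fun l r hr => ?_, fun F _ _ R => ?_⟩
  · obtain ⟨r, hr, h0⟩ := (Submodule.ne_bot_iff _).1 hq0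
    exact ⟨i₁, r, (h3 r).2 hr, fun h => h0 (Subtype.ext h)⟩
  · by_cases hl : (1 : K) ∈ J.J l
    · simpa only [mul_one] using J.mul l r (J₁.le l r hr) _ hl
    obtain ⟨e, s, hs, h5⟩ := h4 l r hr
    obtain ⟨d, hd⟩ := J.glue i₁ l s (hle hs)
    have h6 := J.mul l _ (pow_mem (Basic_mem x l i₁) e) _ hd
    rw [← h5, ← mul_assoc, mul_left_comm, ← mul_pow, div_mul_div_cancel₀ (x l).ne_zero,
      div_self (x i₁).ne_zero, one_pow, mul_one] at h6
    exact res_pow hp (J₁.le l r hr) (Basic_mem x l i₁) (res_not hp hl h1) h6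
  · rw [rd_trdeg_eq R (fun h => (Ideal.ne_top_iff_one q).1 hq.ne_top ((h3 1).1 h)) q h3, htr]
    refine (codb_trdeg (chart x i₁).val Subtype.val_injective fun z => ?_).symm
    obtain ⟨a, ha, b, hb, h5⟩ := codb_frac i₀ one gen i₁ z
    exact ⟨⟨a, ha⟩, ⟨b, hb⟩, h5⟩

end Pool.Agent.Lib.MP_bc213e_ag.OW
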