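import Pool.Agent.Lib.MP_bc213e_ag.OW.H.Big
import Pool.Agent.Lib.MP_bc213e_ag.OW.H.CodB

/-! The degree in `t` of `χ (t L + a H)` is the numerical dimension of `L`. -/

namespace Pool.Agent.Lib.MP_bc213e_ag.OW

open Pool.Agent.Lib.MP_bc213e_ag.Hyp Pool.Agent.Lib.MP_bc213e_ag.KBB MvPolynomial

theorem td_ind (ν n : ℕ) : ∀ (K ι : Type) [Field K] [Algebra ℂ K] [Fintype ι] (x g : ι → Kˣ)
    (i₀ : ι), x i₀ = 1 → IntermediateField.adjoin ℂ (Set.range fun i => (x i : K)) = ⊤ →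
      Cart x g → Nef x g → Algebra.trdeg ℂ K = n → ∀ P : P2, Rep g (Idl.bot x) P → Dg P n →
        (∀ i j, ν < i → i + j = n → cf P i j = 0) → TD ν P := by
  induction n with
  | zero =>
    intro K ι _ _ _ x g i₀ _ _ _ _ _ P _ hd _ i j hi
    exact hd i j (by omega)
  | succ n ih =>
    intro K ι _ _ _ x g i₀ one gen hc hn tr P hP hd h0
    classical
    have : Nonempty ι := ⟨i₀⟩
    by_cases hs : ∀ (t : ℕ) (s : K), Sec x (tw x g t 1) 1 0 s → s = 0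
    swap
    · push Not at hs
      obtain ⟨t, s, h1, h2⟩ := hs
      have h3 := big_of_sec i₀ one gen hc tr hP hd h2 h1
      intro i j hi
      refine hd i j ?_
      by_contra h4
      exact h3 (h0 (n + 1) 0 (by omega) rfl)
    refine td_of_no_sec hc (bnd_nz hc hn fun J i₁ P' hp hJ h1 hP' => ?_) hP hs
    obtain ⟨J₁, hp₁, ⟨l, r, hr, hr0⟩, hle, htr⟩ := exists_codim_one i₀ one gen hp hJ h1
    obtain ⟨F, _, _, ⟨R⟩⟩ := exists_rd hc J₁ hp₁ fun h => h1 (hle i₁ h)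
    obtain ⟨P₁, hP₁⟩ := rep_nef hc hn J₁
    obtain ⟨c, h2⟩ := res_unif (g := g) J₁.mul fun l' => J₁.glue l l' r hr
    have hf : Sec x g 0 c (r * (x l : K) ^ c) := fun l' => J₁.le l' _ (h2 c le_rfl l')
    have hf0 : r * (x l : K) ^ c ≠ 0 := mul_ne_zero hr0 (pow_ne_zero _ (x l).ne_zero)
    obtain ⟨P₂, hP₂⟩ := rep_nef hc hn ((Idl.bot x).adj hc hf)
    have e1 := rep_ext_nef hc hn hf hP (by rwa [colon_bot hc hf hf0]) hP₂
    have e2 : sh 0 c P₂ = sh 0 c P - P := by rw [e1, add_sub_cancel_left]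
    have d1 : Dg (sh 0 c P₂) n := e2 ▸ dg_sh_sub hd 0 c
    have e3 : sh (-0) (-c) (sh 0 c P₂) = P₂ := sh_sh_neg 0 c P₂
    have d2 : Dg P₂ n := e3 ▸ dg_sh d1 (-0) (-c)
    have z2 : ∀ i j, ν < i → i + j = n → cf P₂ i j = 0 := fun i j hi hij => by
      rw [← cf_sh_top d2 0 c hij, e2, cf_sub, cf_sh_next hd 0 c hij, h0 i (j + 1) hi (by omega)]
      ring
    have hle2 : ∀ i, ((Idl.bot x).adj hc hf).J i ≤ J₁.J i := fun i u hu => by
      obtain ⟨s, hs, h3⟩ := ((Idl.bot x).mem_adj hc hf).1 hu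
      rw [sub_eq_zero.1 (mem_bot.1 h3)]
      exact J₁.mul i _ hs _ (h2 c le_rfl i)
    obtain ⟨d3, z3⟩ := top_le (tp_nef hc hn J₁ hP₁) (rep_mono hc hn hle2 hP₂ hP₁).1 d2
    have trF : Algebra.trdeg ℂ F = n := by
      have h3 := htr F R
      rw [tr, Nat.cast_succ] at h3
      exact Cardinal.add_one_inj.1 h3
    have hP₁' : Rep R.g' (Idl.bot R.x') P₁ := by
      obtain ⟨a₀, h3⟩ := hP₁
      refine ⟨a₀, fun t a ha => ?_⟩
      rw [← h3 t a ha, hz, hz, rd_rank R hc]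
    exact td_of_le hP'.nn (rep_mono hc hn hle hP₁ hP').2
      (ih F _ R.x' R.g' R.i₀ R.one R.gen (R.cart hc) (R.nef hn) trF P₁ hP₁' d3
        fun i j hi hij => z3 i j hij (z2 i j hi hij))

theorem dg_rep {K ι : Type} [Field K] [Algebra ℂ K] [Fintype ι] {x g : ι → Kˣ} (i₀ : ι)
    (one : x i₀ = 1) (gen : IntermediateField.adjoin ℂ (Set.range fun i => (x i : K)) = ⊤)
    (hc : Cart x g) (hn : Nef x g) {n : ℕ} (tr : Algebra.trdeg ℂ K = n) {P : P2}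
    (hP : Rep g (Idl.bot x) P) : Dg P n := by
  have : Nonempty ι := ⟨i₀⟩
  obtain ⟨k, B, h1⟩ := dim_up i₀ one gen hc tr
  obtain ⟨a₀, h2⟩ := id hP
  exact dg_of_bound (tp_nef hc hn _ hP) (a₀ := a₀) fun t a ha => h2 t a ha ▸ h1 t a

end Pool.Agent.Lib.MP_bc213e_ag.OW
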