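import Pool.Agent.Lib.MP_bc213e_ag.OW.H.PolE
import Pool.Agent.Lib.MP_bc213e_ag.OW.C.Top
import Pool.Agent.Lib.MP_bc213e_ag.OW.C.GenB

/-! Hilbert polynomials of subschemes for a nef line bundle. -/

namespace Pool.Agent.Lib.MP_bc213e_ag.OW

open Pool.Agent.Lib.MP_bc213e_ag.Hyp Pool.Agent.Lib.MP_bc213e_ag.KBB MvPolynomial

variable {K ι : Type} [Field K] [Algebra ℂ K] {x g : ι → Kˣ}

theorem rep_nef [Fintype ι] (hc : Cart x g) (hn : Nef x g) (J : Idl x) : ∃ P, Rep g J P :=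
  (good hc hn J).2

theorem Rep.nn {J : Idl x} {P : P2} (h : Rep g J P) : NN P := by
  obtain ⟨a₀, h⟩ := h
  refine ⟨a₀, fun t a ha => ?_⟩
  rw [← h t a ha]
  exact Nat.cast_nonneg _

/-- Sketch: as `rep_ext`, with `good hc hn`. -/
theorem rep_ext_nef [Fintype ι] (hc : Cart x g) (hn : Nef x g) {J : Idl x} {δ : ℕ} {f : K}
    (hf : Sec x g 0 δ f) {P P₁ P₂ : P2} (h : Rep g J P) (h1 : Rep g (J.colon hc hf) P₁)
    (h2 : Rep g (J.adj hc hf) P₂) : sh 0 δ P = P₁ + sh 0 δ P₂ := by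
  obtain ⟨a₀, h⟩ := h
  obtain ⟨a₁, h1⟩ := h1
  obtain ⟨a₂, h2⟩ := h2
  obtain ⟨⟨b₀, g0⟩, -⟩ := good hc hn J
  obtain ⟨⟨b₁, g1⟩, -⟩ := good hc hn (J.colon hc hf)
  refine eq_of_cone 0 (a₀ + a₁ + a₂ + b₀ + b₁) fun t a ha => ?_
  have e3 := J.add_rank hc hf t a (g1 t a (by omega)).1
  rw [add_zero] at e3
  have e4 := e3 (g0 t (a + δ) (by omega)).2
  rw [ev_add, ev_sh, ev_sh, add_zero, ← Nat.cast_add, ← h t _ (by omega), ← h1 t _ (by omega),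
    ← h2 t _ (by omega), hz, hz, hz, e4, Nat.cast_add]

/-- Sketch: `tp_nz` with `below_of_nef`; for the zero ideal `tp_step` with `f = x i`
(`colon_bot`, `nz_adj`, `tp_sh`). -/
theorem tp_nef [Fintype ι] [Nonempty ι] (hc : Cart x g) (hn : Nef x g) (J : Idl x) {P : P2}
    (h : Rep g J P) : TP P := by
  by_cases hJ : NZ J
  · exact tp_nz hc (below_of_nef hn) J hJ h
  obtain rfl := eq_bot_of_not_nz hJ
  obtain ⟨i⟩ := id ‹Nonempty ι›
  have hf := main_sec_one x g i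
  have h0 := fr_ne x g 0 1 i
  obtain ⟨P₂, p2⟩ := rep_nef hc hn ((Idl.bot x).adj hc hf)
  have e := rep_ext_nef hc hn hf h ((colon_bot hc hf h0).symm ▸ h) p2
  have t2 := tp_sh (tp_nz hc (below_of_nef hn) _ (nz_adj hc _ hf h0) p2) 0 1
  obtain ⟨a₀, h⟩ := h
  refine tp_step ?_ a₀ fun t => ?_
  · rw [Nat.cast_one] at e
    rwa [e, add_sub_cancel_left]
  · rw [← h t a₀ le_rfl]
    exact Nat.cast_nonneg _

/-- Sketch: Noetherian induction on `J` as in `KBB.lift`: if `J ≠ J'` there is a section `f` of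
`δ H` in `J'` and not in `J`; then `P - P' = sh 0 (-δ) P₁ + (P₂ - P')` (`sh_sh_neg`). If `J = J'`
use `eq_of_cone`. -/
theorem rep_mono [Fintype ι] [Nonempty ι] (hc : Cart x g) (hn : Nef x g) {J J' : Idl x}
    (hle : ∀ i, J.J i ≤ J'.J i) {P P' : P2} (h : Rep g J P) (h' : Rep g J' P') :
    TP (P - P') ∧ NN (P - P') := by
  refine Idl.induction (fun J => (∀ i, J.J i ≤ J'.J i) → ∀ P, Rep g J P →
    TP (P - P') ∧ NN (P - P')) (fun J ih hle P h => ?_) J hle P h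
  by_cases hJ : ∀ i, J'.J i ≤ J.J i
  · obtain rfl : J = J' := main_ext fun i => le_antisymm (hle i) (hJ i)
    obtain ⟨a₀, h⟩ := h
    obtain ⟨a₁, h'⟩ := h'
    rw [eq_of_cone (P := P) (Q := P') 0 (a₀ + a₁) fun t a ha =>
      (h t a (by omega)).symm.trans (h' t a (by omega)), sub_self]
    exact ⟨tp_zero, 0, fun t a _ => (ev_zero _ _).ge⟩
  obtain ⟨i, hi⟩ := not_forall.1 hJ
  obtain ⟨r, hr, hr'⟩ := SetLike.not_le_iff_exists.1 hi
  obtain ⟨c, h1⟩ := res_unif (g := g) J'.mul fun l => J'.glue i l r hr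
  have hf : Sec x g 0 c (r * (x i : K) ^ c) := fun l => J'.le l _ (h1 c le_rfl l)
  obtain ⟨P₁, p1⟩ := rep_nef hc hn (J.colon hc hf)
  obtain ⟨P₂, p2⟩ := rep_nef hc hn (J.adj hc hf)
  have h2 := ih (J.adj hc hf) (J.le_adj hc hf) ⟨i, _, J.self_mem_adj hc hf i, by
    rwa [res_fr, div_self (x i).ne_zero, one_pow, mul_one]⟩ (fun l u hu => by
      obtain ⟨s, hs, h2⟩ := (J.mem_adj hc hf).1 hu
      have h3 := add_mem (hle l h2) (J'.mul l _ hs _ (h1 c le_rfl l))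
      rwa [sub_add_cancel] at h3) P₂ p2
  have e : P - P' = sh 0 (-(c : ℚ)) P₁ + (P₂ - P') := by
    have e1 := congrArg (sh (-0) (-(c : ℚ))) (rep_ext_nef hc hn hf h p1 p2)
    rw [sh_sh_neg, show sh (-0) (-(c : ℚ)) (P₁ + sh 0 c P₂) = sh _ _ P₁ + sh _ _ (sh 0 c P₂) from
      map_add (bind₁ _) _ _, sh_sh_neg, neg_zero] at e1
    rw [e1, add_sub_assoc]
  rw [e]
  exact ⟨tp_add (tp_sh (tp_nef hc hn _ p1) _ _) h2.1, nn_add (nn_sh p1.nn c) h2.2⟩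

/-- Sections on a prime ideal sheaf are sections on the subvariety. Sketch: the map
`s ↦ R.ρ (s R.i₀ / fr x g t a R.i₀)` on `J.Z0` has kernel `J.C0` and image `SecS R.x' R.g' t a`
(`res2_z0`, proof of `Rd.fd`, `rd_z0` in `C/GenB`); `h0_bot`. -/
theorem rd_rank {J : Idl x} {F : Type} [Field F] [Algebra ℂ F] (R : Rd x g J F) (hc : Cart x g)
    (t : ℤ) (a : ℕ) : Module.finrank ℂ (J.H0 g t a) =
      Module.finrank ℂ ((Idl.bot R.x').H0 R.g' t a) := by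
  have : Nonempty {i // (1 : K) ∉ J.J i} := ⟨R.i₀⟩
  obtain ⟨e⟩ := h0_bot R.x' R.g' t a
  let φ : (ι → K) →ₗ[ℂ] F :=
    R.ρ ∘ₗ LinearMap.mulRight ℂ (fr x g t a R.i₀)⁻¹ ∘ₗ LinearMap.proj (R.i₀ : ι)
  have hφ : ∀ s, φ s = R.ρ (s R.i₀ / fr x g t a R.i₀) := fun s => by
    rw [div_eq_mul_inv]
    rfl
  let ψ : J.Z0 g t a →ₗ[ℂ] SecS R.x' R.g' t a :=
    (φ ∘ₗ (J.Z0 g t a).subtype).codRestrict _ fun s i => by
      have h := R.map_chart i (s.2.1 i)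
      rwa [← R.res2_z0 s.2 i, ← hφ] at h
  have hψ : Function.Surjective ψ := fun s' => by
    obtain ⟨σ, h1, h2⟩ := rd_z0 R hc s'.2
    exact ⟨⟨σ, h1⟩, Subtype.ext ((hφ σ).trans h2)⟩
  have hk : LinearMap.ker ((J.C0 g t a).mkQ ∘ₗ (J.Z0 g t a).subtype) = LinearMap.ker ψ := by
    refine le_antisymm (fun s hs => ?_) fun s hs => ?_
    · exact LinearMap.mem_ker.2 (Subtype.ext ((hφ s).trans
        ((R.ker R.i₀ _ (s.2.1 _)).2 ((Submodule.Quotient.mk_eq_zero _).1 hs _))))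
    · have h0 : φ s = 0 := congrArg Subtype.val (LinearMap.mem_ker.1 hs)
      refine (Submodule.Quotient.mk_eq_zero _).2 fun i => ?_
      by_cases hi : (1 : K) ∈ J.J i
      · exact mul_one (s.1 i / fr x g t a i) ▸ J.mul i _ (s.2.1 i) _ hi
      · refine (R.ker ⟨i, hi⟩ _ (s.2.1 i)).1 ?_
        rw [← R.res2_z0 s.2 ⟨i, hi⟩, ← hφ, h0, zero_div]
  have h : J.H0 g t a = LinearMap.range ((J.C0 g t a).mkQ ∘ₗ (J.Z0 g t a).subtype) := by
    rw [LinearMap.range_comp, Submodule.range_subtype, Idl.H0]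
  rw [h, e.finrank_eq, ← (LinearMap.quotKerEquivRange _).finrank_eq, hk,
    (ψ.quotKerEquivOfSurjective hψ).finrank_eq]

end Pool.Agent.Lib.MP_bc213e_ag.OW
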