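import Pool.Agent.Lib.MP_bc213e_ag.OW.H.Defs
import Pool.Agent.Lib.MP_bc213e_ag.OW.C.PolD
import Pool.Agent.Lib.MP_bc213e_ag.OW.F.Poly

/-! The degree in the first variable and growth. -/

namespace Pool.Agent.Lib.MP_bc213e_ag.OW

open Pool.Agent.Lib.MP_bc213e_ag.Hyp Pool.Agent.Lib.MP_bc213e_ag.KBB MvPolynomial

theorem td_bound {ν : ℕ} {P : P2} (h : TD ν P) (a : ℚ) :
    ∃ C : ℚ, ∀ t : ℕ, |ev P t a| ≤ C * ((t : ℚ) + 1) ^ ν := by
  obtain ⟨d, hd⟩ := dg_exists P
  refine ⟨∑ i ∈ Finset.range (d + 1), ∑ j ∈ Finset.range (d + 1), |cf P i j * a ^ j|, fun t => ?_⟩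
  rw [ev_eq_sum hd, Finset.sum_mul]
  refine (Finset.abs_sum_le_sum_abs _ _).trans (Finset.sum_le_sum fun i _ => ?_)
  rw [Finset.sum_mul]
  refine (Finset.abs_sum_le_sum_abs _ _).trans (Finset.sum_le_sum fun j _ => ?_)
  rcases Nat.lt_or_ge ν i with h1 | h1
  · simp [h i j h1]
  · have h0 : (0 : ℚ) ≤ t := Nat.cast_nonneg t
    rw [mul_right_comm, abs_mul, abs_of_nonneg (pow_nonneg h0 i)]
    exact mul_le_mul_of_nonneg_left ((pow_le_pow_left₀ h0 (by linarith) i).trans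
      (pow_le_pow_right₀ (by linarith) h1)) (abs_nonneg _)

theorem pole_coeff (c : ℕ → ℚ) (d i : ℕ) (h : i < d) :
    (∑ n ∈ Finset.range d, Polynomial.monomial n (c n)).coeff i = c i := by
  simp [Polynomial.coeff_monomial, h]

theorem td_of_bound {ν a₀ : ℕ} {P : P2}
    (h : ∀ a : ℕ, a₀ ≤ a → ∃ C : ℚ, ∀ t : ℕ, |ev P t a| ≤ C * ((t : ℚ) + 1) ^ ν) : TD ν P := by
  obtain ⟨d, hd⟩ := dg_exists P
  intro i j hi
  rcases Nat.lt_or_ge d (i + j) with h1 | h1
  · exact hd i j h1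
  have h2 : (∑ n ∈ Finset.range (d + 1), Polynomial.monomial n (cf P i n)) = 0 := by
    refine Polynomial.eq_zero_of_infinite_isRoot _ (Set.Infinite.mono ?_
      ((Set.Ici_infinite a₀).image (Nat.cast_injective (R := ℚ)).injOn))
    rintro _ ⟨a, ha, rfl⟩
    obtain ⟨C, hC⟩ := h a ha
    have h3 := natDegree_le_of_bound (q := ∑ m ∈ Finset.range (d + 1), Polynomial.monomial m
        (∑ n ∈ Finset.range (d + 1), cf P m n * (a : ℚ) ^ n)) (ν := ν) (C := C) fun t => by
      have h4 := hC t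
      rw [ev_eq_sum hd] at h4
      simpa only [Polynomial.eval_finsetSum, Polynomial.eval_monomial, Finset.sum_mul,
        mul_right_comm _ ((a : ℚ) ^ _)] using h4
    have h4 := Polynomial.coeff_eq_zero_of_natDegree_lt (h3.trans_lt hi)
    rw [pole_coeff _ _ _ (by omega)] at h4
    simpa [Polynomial.eval_finsetSum] using h4
  rw [← pole_coeff (cf P i) (d + 1) j (by omega), h2, Polynomial.coeff_zero]

theorem td_of_le {ν : ℕ} {P P' : P2} (h1 : NN P') (h2 : NN (P - P')) (h : TD ν P) : TD ν P' := by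
  obtain ⟨a₁, h1⟩ := h1
  obtain ⟨a₂, h2⟩ := h2
  refine td_of_bound (a₀ := a₁ + a₂) fun a ha => (td_bound h a).imp fun C hC t => ?_
  have h3 := h1 t a (by omega)
  have h4 := h2 t a (by omega)
  rw [ev_sub] at h4
  rw [abs_of_nonneg h3]
  exact (sub_nonneg.1 h4).trans ((le_abs_self _).trans (hC t))

theorem top_le {P P' : P2} {d : ℕ} (h1 : TP P') (h2 : TP (P - P')) (h : Dg P d) :
    Dg P' d ∧ ∀ i j, i + j = d → cf P i j = 0 → cf P' i j = 0 := by
  have key : ∀ n, Dg P' (d + n) → Dg P' d := by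
    intro n
    induction n with
    | zero => exact id
    | succ n ih =>
      refine fun a => ih fun i j hij => ?_
      rcases Nat.lt_or_ge (d + (n + 1)) (i + j) with h3 | h3
      · exact a i j h3
      · have h4 := h2 (d + (n + 1)) (fun i j e => by rw [cf_sub, h i j (by omega), a i j e, sub_zero])
          i j (by omega)
        rw [cf_sub, h i j (by omega), zero_sub, neg_nonneg] at h4
        exact le_antisymm h4 (h1 _ a i j (by omega))
  obtain ⟨p, hp⟩ := dg_exists P'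
  have a := key p (hp.mono (by omega))
  refine ⟨a, fun i j hij e => ?_⟩
  have h4 := h2 d (fun i j e => by rw [cf_sub, h i j e, a i j e, sub_zero]) i j hij
  rw [cf_sub, e, zero_sub, neg_nonneg] at h4
  exact le_antisymm h4 (h1 _ a i j hij)

theorem nn_add {P P' : P2} (h : NN P) (h' : NN P') : NN (P + P') := by
  obtain ⟨a, h⟩ := h
  obtain ⟨b, h'⟩ := h'
  exact ⟨a + b, fun t c hc => (ev_add P P' t c).symm ▸
    add_nonneg (h t c (by omega)) (h' t c (by omega))⟩

theorem nn_sh {P : P2} (h : NN P) (δ : ℕ) : NN (sh 0 (-(δ : ℚ)) P) := by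
  obtain ⟨a, h⟩ := h
  refine ⟨a + δ, fun t c hc => ?_⟩
  rw [ev_sh, add_zero, ← sub_eq_add_neg, ← Nat.cast_sub (by omega)]
  exact h t _ (by omega)

end Pool.Agent.Lib.MP_bc213e_ag.OW
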